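import Pool.Agent.Lib.KP.All
import Pool.Agent.Lib.KP.Uni

/-!
# MP_64edc4_ag: bounded semialgebraic domains with compact quotients, dimension at most two

Let `V ⊆ ℂᴺ` be the zero set of a set of polynomials and `U ⊆ V` a connected bounded semialgebraic
set, open in `V`, near each point of which `V` is a complex submanifold of dimension at most two.
If a group `Γ` acts on `U` by holomorphic maps and `U / Γ` is compact then `U` is biholomorphic to a
bounded symmetric domain.

The definitions are in `Pool.Agent.Lib.KP.Defs` (`zeroSet`, `SemiAlg`, `SmoothAt`, `HolOn`, `Biholo`,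
`IsBSD`).

The proof (`Pool.Agent.Lib.KP`): normal families and a cocompactness argument show that `U` is taut
and give exhausting scalings at the boundary points; elementary semialgebraic geometry of the boundary
(minimal level functions) gives a peak function at a suitable boundary point; the scaled limits are the
disc, the ball, the bidisc or domains `Re w > p (z)` with a subharmonic weighted homogeneous `p`, and
for the latter the compactness of the quotient leads to a contradiction or to a symmetric domain.
-/

set_option autoImplicit false

open Set Filter Topology Metric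

namespace KP.Retired.DimensionAtMostTwo

open KP

universe u

theorem result (N : ℕ) (I : Set (MvPolynomial (Fin N) ℂ)) (U : Set (Cn N))
    (hopen : ∃ O : Set (Cn N), IsOpen O ∧ U = zeroSet I ∩ O) (hconn : IsConnected U)
    (hbdd : Bornology.IsBounded U) (hsemi : SemiAlg U)
    (hreg : ∀ z ∈ U, ∃ n ≤ 2, SmoothAt (zeroSet I) n z)
    (Γ : Type u) [Group Γ] [MulAction Γ U]
    (hhol : ∀ γ : Γ, ∃ f : Cn N → Cn N, HolOn f U ∧ ∀ u : U, f u = ((γ • u : U) : Cn N))
    (hcpt : CompactSpace (Quotient (MulAction.orbitRel Γ U))) :
    ∃ n ≤ 2, (∀ z ∈ U, SmoothAt (zeroSet I) n z) ∧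
      ∃ D : Set (Cn n), IsBSD D ∧ Biholo U D :=
  main_univ a_Main N I U hopen hconn hbdd hsemi hreg Γ hhol hcpt

end KP.Retired.DimensionAtMostTwo
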